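import Pool.Agent.J4.H30.NF.Taylor

/-!
# Taylor expansions of analytic functions
-/

set_option autoImplicit false

namespace Pool.Agent.J4.H30.NF

open Filter Topology

variable {𝕜 : Type*} [NontriviallyNormedField 𝕜] {n : ℕ}

/-- the homogeneous components -/
noncomputable def qpoly (s : FormalMultilinearSeries 𝕜 (Fin n → 𝕜) 𝕜) (m : ℕ) :
    MvPolynomial (Fin n) 𝕜 :=
  ∑ r : Fin m → Fin n, MvPolynomial.C (s m fun k => Pi.single (r k) 1) *
    ∏ k, MvPolynomial.X (r k)

theorem eval_qpoly (s : FormalMultilinearSeries 𝕜 (Fin n → 𝕜) 𝕜) (m : ℕ) (y : Fin n → 𝕜) :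
    MvPolynomial.eval y (qpoly s m) = s m fun _ => y := by
  have h1 : y = ∑ i, y i • (Pi.single i 1 : Fin n → 𝕜) := by
    ext j
    simp [Finset.sum_apply, Pi.single_apply]
  have h2 : (s m fun _ => y) = s m fun _ : Fin m => ∑ i, y i • (Pi.single i 1 : Fin n → 𝕜) := by
    congr 1
    ext k : 1
    exact h1
  rw [h2, ContinuousMultilinearMap.map_sum, qpoly, map_sum]
  refine Finset.sum_congr rfl fun r _ => ?_
  rw [ContinuousMultilinearMap.map_smul_univ, map_mul, map_prod, MvPolynomial.eval_C,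
    smul_eq_mul, mul_comm]
  congr 1
  exact Finset.prod_congr rfl fun k _ => MvPolynomial.eval_X _

theorem qpoly_hom (s : FormalMultilinearSeries 𝕜 (Fin n → 𝕜) 𝕜) (m : ℕ) :
    (qpoly s m).IsHomogeneous m := by
  refine MvPolynomial.IsHomogeneous.sum _ _ _ fun r _ => ?_
  have h1 : (∏ k : Fin m, (MvPolynomial.X (r k) : MvPolynomial (Fin n) 𝕜)).IsHomogeneous
      (∑ _k : Fin m, 1) :=
    MvPolynomial.IsHomogeneous.prod _ _ _ fun k _ => MvPolynomial.isHomogeneous_X _ _
  have h2 : (∑ _k : Fin m, 1) = m := by simp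
  rw [h2] at h1
  exact h1.C_mul _

/-- the formal power series -/
noncomputable def series (s : FormalMultilinearSeries 𝕜 (Fin n → 𝕜) 𝕜) :
    MvPowerSeries (Fin n) 𝕜 :=
  fun d => (qpoly s d.degree).coeff d

theorem trunc_series (s : FormalMultilinearSeries 𝕜 (Fin n → 𝕜) 𝕜) (M : ℕ) :
    MvPowerSeries.truncTotal M (series s) = ∑ m ∈ Finset.range M, qpoly s m := by
  ext d
  rw [MvPolynomial.coeff_sum, MvPowerSeries.coeff_truncTotal_eq_ite]
  have h1 : ∀ m, d.degree ≠ m → (qpoly s m).coeff d = 0 := fun m hm =>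
    (qpoly_hom s m).coeff_eq_zero hm
  split_ifs with hd
  · rw [Finset.sum_eq_single d.degree]
    · rfl
    · intro m _ hm
      exact h1 m hm.symm
    · intro h
      exact absurd (Finset.mem_range.2 hd) h
  · symm
    refine Finset.sum_eq_zero fun m hm => h1 m ?_
    have := Finset.mem_range.1 hm
    omega

/-- analytic functions have Taylor expansions -/
theorem hasTaylor_analytic {D : Set (Fin n → 𝕜)} (f : D → 𝕜) (g : (Fin n → 𝕜) → 𝕜)
    (hfg : ∀ x : D, f x = g x) (a : Fin n → 𝕜) (s : FormalMultilinearSeries 𝕜 (Fin n → 𝕜) 𝕜)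
    (hs : HasFPowerSeriesAt g s a) : HasTaylor f a (series s) := by
  intro M
  have h1 := hs.isBigO_sub_partialSum_pow M
  rw [Asymptotics.isBigO_iff] at h1
  obtain ⟨C, hC⟩ := h1
  refine ⟨C, ?_⟩
  filter_upwards [hC] with y hy h
  rw [hfg, trunc_series, map_sum]
  rw [norm_pow, norm_norm] at hy
  refine le_trans (le_of_eq ?_) hy
  congr 2
  rw [FormalMultilinearSeries.partialSum]
  exact Finset.sum_congr rfl fun m _ => eval_qpoly s m y

theorem eventually_zero_of_series (g : (Fin n → 𝕜) → 𝕜) (a : Fin n → 𝕜)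
    (s : FormalMultilinearSeries 𝕜 (Fin n → 𝕜) 𝕜) (hs : HasFPowerSeriesAt g s a)
    (h0 : series s = 0) : g =ᶠ[𝓝 a] 0 := by
  have h1 : ∀ m, qpoly s m = 0 := by
    intro m
    ext d
    rw [MvPolynomial.coeff_zero]
    by_cases hd : d.degree = m
    · have h2 := congrArg (MvPowerSeries.coeff d) h0
      rw [map_zero] at h2
      have h3 : MvPowerSeries.coeff d (series s) = (qpoly s d.degree).coeff d := rfl
      rw [h3, hd] at h2
      exact h2
    · exact (qpoly_hom s m).coeff_eq_zero hd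
  have h2 : ∀ m y, (s m fun _ : Fin m => y) = 0 := by
    intro m y
    rw [← eval_qpoly, h1 m, map_zero]
  filter_upwards [hs.eventually_hasSum_sub] with y hy
  have h3 : (fun m => s m fun _ : Fin m => y - a) = fun _ => 0 := by
    ext m
    exact h2 m _
  rw [h3] at hy
  exact hy.unique hasSum_zero

section RC

variable {𝕂 : Type*} [RCLike 𝕂]

/-- The ring of functions on the set `D` which are analytic at every point of `D`. -/
def analyticRing (𝕂 : Type*) [RCLike 𝕂] {n : ℕ} (D : Set (Fin n → 𝕂)) : Subring (D → 𝕂) where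
  carrier := {f | ∃ g : (Fin n → 𝕂) → 𝕂, AnalyticOnNhd 𝕂 g D ∧ ∀ x : D, f x = g x}
  zero_mem' := ⟨0, analyticOnNhd_const, fun _ => rfl⟩
  one_mem' := ⟨1, analyticOnNhd_const, fun _ => rfl⟩
  add_mem' := by
    rintro f f' ⟨g, hg, h⟩ ⟨g', hg', h'⟩
    exact ⟨g + g', hg.add hg', fun x => by rw [Pi.add_apply, Pi.add_apply, h, h']⟩
  mul_mem' := by
    rintro f f' ⟨g, hg, h⟩ ⟨g', hg', h'⟩
    exact ⟨g * g', hg.mul hg', fun x => by rw [Pi.mul_apply, Pi.mul_apply, h, h']⟩
  neg_mem' := by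
    rintro f ⟨g, hg, h⟩
    exact ⟨-g, hg.neg, fun x => by rw [Pi.neg_apply, Pi.neg_apply, h]⟩

theorem analyticRing_taylor {D : Set (Fin n → 𝕂)} (hD : IsPreconnected D) (a : Fin n → 𝕂)
    (ha : a ∈ D) (f : D → 𝕂) (hf : f ∈ analyticRing 𝕂 D) :
    ∃ p, HasTaylor f a p ∧ (f ≠ 0 → p ≠ 0) := by
  obtain ⟨g, hg, h⟩ := hf
  obtain ⟨s, hs⟩ := hg a ha
  refine ⟨series s, hasTaylor_analytic f g h a s hs, fun hf0 hp => hf0 ?_⟩
  have h1 := hg.eqOn_zero_of_preconnected_of_eventuallyEq_zero hD ha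
    (eventually_zero_of_series g a s hs hp)
  ext x
  rw [h x]
  exact h1 x.2

theorem coord_mem (D : Set (Fin n → 𝕂)) (a : Fin n → 𝕂) (i : Fin n) :
    (fun x : D => x.1 i - a i) ∈ analyticRing 𝕂 D := by
  refine ⟨fun x => x i - a i, fun x _ => ?_, fun _ => rfl⟩
  exact ((ContinuousLinearMap.proj (R := 𝕂) (φ := fun _ : Fin n => 𝕂) i).analyticAt x).sub
    analyticAt_const

end RC

end Pool.Agent.J4.H30.NF
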