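import Mathlib

/-!
# Restrictions of discrete valuation rings to subfields
-/

set_option autoImplicit false

namespace Pool.Agent.J4.H30.NF

open IsLocalRing

variable {F A E : Type*} [Field F] [CommRing A] [IsDomain A] [IsDiscreteValuationRing A]
  [Field E] [Algebra A E] [IsFractionRing A E]

/-- The valuation ring of `F` induced by a discrete valuation ring `A` of an extension field. -/
def comapV (A : Type*) [CommRing A] [IsDomain A] [IsDiscreteValuationRing A]
    [Algebra A E] [IsFractionRing A E] (φ : F →+* E) : ValuationSubring F where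
  toSubring := (algebraMap A E).range.comap φ
  mem_or_inv_mem' := by
    intro x
    change (∃ a, algebraMap A E a = φ x) ∨ ∃ a, algebraMap A E a = φ x⁻¹
    rcases ValuationRing.isInteger_or_isInteger A (φ x) with h | h
    · exact Or.inl h
    · right
      rw [map_inv₀]
      exact h

theorem mem_comapV (φ : F →+* E) (x : F) :
    x ∈ comapV A φ ↔ ∃ a, algebraMap A E a = φ x := Iff.rfl

theorem exists_toA (φ : F →+* E) (x : comapV A φ) : ∃ a, algebraMap A E a = φ x := x.2

/-- the local homomorphism -/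
noncomputable def toA (A : Type*) [CommRing A] [IsDomain A] [IsDiscreteValuationRing A]
    [Algebra A E] [IsFractionRing A E] (φ : F →+* E) : comapV A φ →+* A where
  toFun x := Classical.choose (exists_toA φ x)
  map_one' := by
    apply IsFractionRing.injective A E
    rw [Classical.choose_spec (exists_toA φ _), map_one]
    exact map_one φ
  map_mul' x y := by
    apply IsFractionRing.injective A E
    rw [Classical.choose_spec (exists_toA φ _), map_mul, Classical.choose_spec (exists_toA φ x),
      Classical.choose_spec (exists_toA φ y)]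
    exact map_mul φ _ _
  map_zero' := by
    apply IsFractionRing.injective A E
    rw [Classical.choose_spec (exists_toA φ _), map_zero]
    exact map_zero φ
  map_add' x y := by
    apply IsFractionRing.injective A E
    rw [Classical.choose_spec (exists_toA φ _), map_add, Classical.choose_spec (exists_toA φ x),
      Classical.choose_spec (exists_toA φ y)]
    exact map_add φ _ _

theorem algebraMap_toA (φ : F →+* E) (x : comapV A φ) :
    algebraMap A E (toA A φ x) = φ x :=
  Classical.choose_spec (exists_toA φ x)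

theorem toA_eq (φ : F →+* E) (x : comapV A φ) (a : A) (h : algebraMap A E a = φ x) :
    toA A φ x = a := by
  apply IsFractionRing.injective A E
  rw [algebraMap_toA, h]

theorem isUnit_toA (φ : F →+* E) (x : comapV A φ) : IsUnit (toA A φ x) ↔ IsUnit x := by
  refine ⟨fun h => ?_, fun h => h.map _⟩
  obtain ⟨u, hu⟩ := h
  have hx0 : (x : F) ≠ 0 := by
    intro h0
    have h1 : x = 0 := Subtype.ext h0
    rw [h1, map_zero] at hu
    exact u.ne_zero hu
  have hinv : (x : F)⁻¹ ∈ comapV A φ := by
    rw [mem_comapV]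
    refine ⟨((u⁻¹ : Aˣ) : A), ?_⟩
    rw [map_inv₀]
    refine eq_inv_of_mul_eq_one_left ?_
    rw [← algebraMap_toA (A := A) φ x, ← hu, ← map_mul, Units.inv_mul, map_one]
  refine IsUnit.of_mul_eq_one ⟨(x : F)⁻¹, hinv⟩ (Subtype.ext ?_)
  exact mul_inv_cancel₀ hx0

theorem toA_ne_zero (φ : F →+* E) (x : comapV A φ) (hx : x ≠ 0) : toA A φ x ≠ 0 := by
  intro h
  apply hx
  have h1 := algebraMap_toA (A := A) φ x
  rw [h, map_zero] at h1
  exact Subtype.ext ((map_eq_zero φ).1 h1.symm)

/-- quotients: divisibility in `A` gives divisibility in the induced valuation ring -/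
theorem dvd_of_toA (φ : F →+* E) (x y : comapV A φ) (hx : x ≠ 0)
    (h : toA A φ x ∣ toA A φ y) : x ∣ y := by
  obtain ⟨a, ha⟩ := h
  have hx0 : (x : F) ≠ 0 := fun h0 => hx (Subtype.ext h0)
  have hq : (y : F) / x ∈ comapV A φ := by
    rw [mem_comapV]
    refine ⟨a, ?_⟩
    rw [map_div₀, eq_div_iff ((map_ne_zero φ).2 hx0), ← algebraMap_toA (A := A) φ x,
      ← algebraMap_toA (A := A) φ y, ha, map_mul, mul_comm]
  refine ⟨⟨(y : F) / x, hq⟩, Subtype.ext ?_⟩
  exact (mul_div_cancel₀ _ hx0).symm

theorem isPrincipal (φ : F →+* E) : IsPrincipalIdealRing (comapV A φ) := by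
  refine ⟨fun I => ?_⟩
  by_cases hI : I = ⊥
  · rw [hI]
    exact bot_isPrincipal
  obtain ⟨z, hz, hz0⟩ := Submodule.exists_mem_ne_zero_of_ne_bot hI
  have hne : ∃ n : ℕ, ∃ x ∈ I, x ≠ 0 ∧ IsDiscreteValuationRing.addVal A (toA A φ x) = n := by
    obtain ⟨n, hn⟩ := ENat.ne_top_iff_exists.1
      (show IsDiscreteValuationRing.addVal A (toA A φ z) ≠ ⊤ by
        intro h
        exact toA_ne_zero φ z hz0 (IsDiscreteValuationRing.addVal_eq_top_iff.1 h))
    exact ⟨n, z, hz, hz0, hn.symm⟩
  classical
  obtain ⟨y, hy, hy0, hyn⟩ := Nat.find_spec hne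
  refine ⟨y, le_antisymm (fun x hx => ?_) ?_⟩
  · by_cases hx0 : x = 0
    · rw [hx0]
      exact Submodule.zero_mem _
    change x ∈ Ideal.span {y}
    rw [Ideal.mem_span_singleton]
    apply dvd_of_toA φ y x hy0
    rw [← IsDiscreteValuationRing.addVal_le_iff_dvd, hyn]
    obtain ⟨m, hm⟩ := ENat.ne_top_iff_exists.1
      (show IsDiscreteValuationRing.addVal A (toA A φ x) ≠ ⊤ by
        intro h
        exact toA_ne_zero φ x hx0 (IsDiscreteValuationRing.addVal_eq_top_iff.1 h))
    rw [← hm]
    exact_mod_cast Nat.find_min' hne ⟨x, hx, hx0, hm.symm⟩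
  · change Ideal.span {y} ≤ I
    rw [Ideal.span_singleton_le_iff_mem]
    exact hy

/-- The induced valuation ring is discrete, unless it is trivial. -/
theorem isDVR (φ : F →+* E) (x : F) (a : A) (hx : φ x = algebraMap A E a) (ha : a ≠ 0)
    (hau : ¬ IsUnit a) : IsDiscreteValuationRing (comapV A φ) := by
  have hpid := isPrincipal (A := A) φ
  have hm : x ∈ comapV A φ := by
    rw [mem_comapV]
    exact ⟨a, hx.symm⟩
  have ht : toA A φ ⟨x, hm⟩ = a := toA_eq φ _ a hx.symm
  refine { toIsPrincipalIdealRing := hpid, toIsLocalRing := inferInstance, not_a_field' := ?_ }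
  intro h
  have h1 : (⟨x, hm⟩ : comapV A φ) ∈ maximalIdeal (comapV A φ) := by
    rw [mem_maximalIdeal, mem_nonunits_iff, ← isUnit_toA (A := A), ht]
    exact hau
  rw [h, Ideal.mem_bot] at h1
  rw [h1, map_zero] at ht
  exact ha ht.symm

theorem valuation_lt_one_iff (φ : F →+* E) (x : F) (a : A) (hx : φ x = algebraMap A E a) :
    (comapV A φ).valuation x < 1 ↔ ¬ IsUnit a := by
  have hm : x ∈ comapV A φ := by
    rw [mem_comapV]
    exact ⟨a, hx.symm⟩
  have ht : toA A φ ⟨x, hm⟩ = a := toA_eq φ _ a hx.symm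
  rw [← ht, isUnit_toA]
  exact ((comapV A φ).valuation_lt_one_iff ⟨x, hm⟩).symm.trans
    ((mem_maximalIdeal _).trans mem_nonunits_iff)

end Pool.Agent.J4.H30.NF
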