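import Pool.Agent.Y562.NN.FF3
import Pool.Agent.J4.H30.NF.Dvr

/-!
# Incomparable discrete valuation rings of a subfield
-/

set_option autoImplicit false

namespace Pool.Agent.J4.H30.NF

open IsLocalRing NNReal
open Pool.Agent.Y562.NN Pool.Agent.Results.MP_3554b5_lc.UnramifiedNorms

/-- incomparable discrete valuation rings -/
theorem core (D N : ℕ) (κ : Type) [Field κ]
    (hN : ∀ v : Fin N → Valuation κ ℝ≥0, (Pairwise fun i j => ∃ x, v i x < 1 ∧ 1 < v j x) →
        ∃ i, (ofValuation (v i)).TameUpTo D)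
    (V : Fin N → ValuationSubring κ) (hV : ∀ i, IsDiscreteValuationRing (V i))
    (hinc : Pairwise fun i j => ∃ x, (V i).valuation x < 1 ∧ 1 < (V j).valuation x)
    (hext : ∀ i, HasExt (ResidueField (V i)) D) : False := by
  have h4 := fun i => exists_real (V i) (hV i)
  choose v hv using h4
  have hlt : ∀ i x, (V i).valuation x < 1 ↔ v i x < 1 := by
    intro i x
    rw [hv i]
    exact ((v i).isEquiv_valuation_valuationSubring.lt_one_iff_lt_one).symm
  have hgt : ∀ i x, 1 < (V i).valuation x ↔ 1 < v i x := by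
    intro i x
    rw [hv i]
    exact ((v i).isEquiv_valuation_valuationSubring.one_lt_iff_one_lt).symm
  obtain ⟨i, hi⟩ := hN v (fun i j hij => by
    obtain ⟨x, h1, h2⟩ := hinc hij
    exact ⟨x, (hlt i x).1 h1, (hgt j x).1 h2⟩)
  have h5 : ∀ W : ValuationSubring κ, V i = W → HasExt (ResidueField W) D := by
    rintro _ rfl
    exact hext i
  obtain ⟨d, hd1, hd2, L, fL, aL, h6, h7⟩ := h5 _ (hv i)
  have h8 : IsDiscreteValuationRing (v i).valuationSubring := by
    have h9 := hV i
    rw [hv i] at h9
    exact h9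
  obtain ⟨a, ha⟩ := value_not_pow (v i) h8 hd1
  rcases (hi d (by omega) hd2).1 with h9 | h9
  · obtain ⟨c, hc⟩ := h9 a
    exact ha c hc
  · exact h9 ⟨L, fL, aL, h6, h7⟩

/-- extension of a discrete valuation ring to a finite extension, with the residue degree -/
theorem exists_ext (F κ : Type) [Field F] [Field κ] [Algebra F κ] [FiniteDimensional F κ]
    (V : ValuationSubring F) (hV : IsDiscreteValuationRing V) :
    ∃ W : ValuationSubring κ, IsDiscreteValuationRing W ∧
      (∀ x, V.valuation x < 1 → W.valuation (algebraMap F κ x) < 1) ∧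
      ∃ f : ResidueField V →+* ResidueField W, f.Finite ∧
        ∀ (m : ℕ) (u : Fin m → ResidueField W),
          (∀ c : Fin m → ResidueField V, ∑ j, f (c j) * u j = 0 → ∀ j, c j = 0) →
          m ≤ Module.finrank F κ := by
  have h0 : maximalIdeal V ≠ ⊥ := IsDiscreteValuationRing.not_a_field V
  have h1 : (maximalIdeal V).height ≤ 1 := by
    refine Ideal.height_le_one_of_isPrincipal_of_mem_minimalPrimes (maximalIdeal V)
      (maximalIdeal V) ?_
    rw [Ideal.minimalPrimes_eq_subsingleton_self]
    exact Set.mem_singleton _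
  obtain ⟨W, hW, hW1, hW2, f, hf, hfm⟩ := exists_dvr' V F κ (maximalIdeal V) h0 h1
  have hco : ∀ x : V, algebraMap V κ x = algebraMap F κ (x : F) := fun x =>
    IsScalarTower.algebraMap_apply V F κ x
  have hq := Ideal.bijective_algebraMap_quotient_residueField (maximalIdeal V)
  refine ⟨W, hW, ?_, f.comp (algebraMap (V ⧸ maximalIdeal V) _), ?_, ?_⟩
  · intro x hx
    have hm : x ∈ V := by
      rw [← V.valuation_le_one_iff]
      exact hx.le
    have h2 : (⟨x, hm⟩ : V) ∈ maximalIdeal V := (V.valuation_lt_one_iff ⟨x, hm⟩).2 hx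
    have h3 := hW1 _ h2
    rwa [hco] at h3
  · exact hf.comp (RingHom.Finite.of_surjective _ hq.2)
  · intro m u hu
    refine finrank_residue_le V F κ (maximalIdeal V) ?_ W hW1 hW2 f hfm m u ?_
    · intro z
      have h1' : (1 : V) ∉ maximalIdeal V := by
        rw [mem_maximalIdeal, mem_nonunits_iff, not_not]
        exact isUnit_one
      rcases V.mem_or_inv_mem z with hz | hz
      · left
        exact ⟨⟨z, hz⟩, 1, h1', by rw [map_one, mul_one]; rfl⟩
      · right
        exact ⟨⟨z⁻¹, hz⟩, 1, h1', by rw [map_one, mul_one]; rfl⟩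
    · let _ : Algebra (maximalIdeal V).ResidueField (ResidueField W) := f.toAlgebra
      rw [Fintype.linearIndependent_iff]
      intro c hc j
      choose c' hc' using fun j => hq.2 (c j)
      have h2 := hu c' (by
        rw [← hc]
        refine Finset.sum_congr rfl fun j _ => ?_
        rw [← hc', Algebra.smul_def]
        rfl) j
      rw [← hc']
      have h3 : c' j = (0 : V ⧸ maximalIdeal V) := h2
      rw [h3, map_zero]

theorem core_ext (D N : ℕ) (κ : Type) [Field κ]
    (hN : ∀ v : Fin N → Valuation κ ℝ≥0, (Pairwise fun i j => ∃ x, v i x < 1 ∧ 1 < v j x) →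
        ∃ i, (ofValuation (v i)).TameUpTo D)
    (F : Type) [Field F] [Algebra F κ] [FiniteDimensional F κ]
    (V : Fin N → ValuationSubring F) (hV : ∀ i, IsDiscreteValuationRing (V i))
    (hinc : Pairwise fun i j => ∃ x, (V i).valuation x < 1 ∧ 1 < (V j).valuation x)
    (hext : ∀ i, ∀ (k : Type) [Field k] (f : ResidueField (V i) →+* k), f.Finite →
      (∀ (m : ℕ) (u : Fin m → k),
          (∀ c : Fin m → ResidueField (V i), ∑ j, f (c j) * u j = 0 → ∀ j, c j = 0) →
          m ≤ Module.finrank F κ) → HasExt k D) : False := by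
  have h1 := fun i => exists_ext F κ (V i) (hV i)
  choose W hW hW1 f hf hfu using h1
  refine core D N κ hN W hW ?_ fun i => hext i _ (f i) (hf i) (hfu i)
  intro i j hij
  obtain ⟨x, h2, h3⟩ := hinc hij
  refine ⟨algebraMap F κ x, hW1 i x h2, ?_⟩
  have h4 : (V j).valuation x⁻¹ < 1 := by
    rw [map_inv₀]
    exact inv_lt_one_of_one_lt₀ h3
  have h5 := hW1 j _ h4
  rw [map_inv₀, map_inv₀] at h5
  have hx0 : x ≠ 0 := by
    rintro rfl
    rw [map_zero] at h3
    exact absurd h3 (by simp)
  have h6 : (W j).valuation (algebraMap F κ x) ≠ 0 := by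
    rw [Valuation.ne_zero_iff, map_ne_zero]
    exact hx0
  exact (inv_lt_one₀ (pos_iff_ne_zero.2 h6)).1 h5

end Pool.Agent.J4.H30.NF
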