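import Mathlib

/-!
# Weighted substitutions of power series
-/

set_option autoImplicit false

namespace Pool.Agent.J4.H30.NF

open Finset

variable {σ : Type*} {R : Type*} [CommRing R]

/-- The substitution `X i ↦ X i * T ^ w i`. -/
noncomputable def wt (w : σ → ℕ) : MvPowerSeries σ R →+* PowerSeries (MvPowerSeries σ R) where
  toFun f := PowerSeries.mk fun m => MvPowerSeries.weightedHomogeneousComponent w m f
  map_zero' := by
    ext m
    simp
  map_add' f g := by
    ext m
    simp
  map_one' := by
    classical
    ext m d
    rw [PowerSeries.coeff_mk, MvPowerSeries.coeff_weightedHomogeneousComponent,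
      PowerSeries.coeff_one, MvPowerSeries.coeff_one]
    by_cases hd : d = 0
    · subst hd
      rw [map_zero]
      by_cases hm : m = 0
      · subst hm
        simp
      · rw [if_neg (Ne.symm hm), if_neg hm, map_zero]
    · by_cases hm : m = 0
      · rw [if_pos hm, MvPowerSeries.coeff_one, if_neg hd, ite_self]
      · rw [if_neg hm, if_neg hd, ite_self, map_zero]
  map_mul' f g := by
    classical
    ext m d
    rw [PowerSeries.coeff_mk, MvPowerSeries.coeff_weightedHomogeneousComponent,
      PowerSeries.coeff_mul, map_sum, MvPowerSeries.coeff_mul]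
    simp only [PowerSeries.coeff_mk, MvPowerSeries.coeff_mul,
      MvPowerSeries.coeff_weightedHomogeneousComponent]
    rw [Finset.sum_comm]
    split_ifs with hd
    · refine Finset.sum_congr rfl fun p hp => ?_
      rw [Finset.HasAntidiagonal.mem_antidiagonal] at hp
      have h1 : Finsupp.weight w p.1 + Finsupp.weight w p.2 = m := by
        rw [← map_add, hp, hd]
      rw [Finset.sum_eq_single (Finsupp.weight w p.1, Finsupp.weight w p.2)]
      · simp
      · rintro ⟨a, b⟩ hab hne
        by_cases h2 : Finsupp.weight w p.1 = a
        · by_cases h3 : Finsupp.weight w p.2 = b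
          · exact absurd (Prod.ext h2.symm h3.symm) hne
          · simp only
            rw [if_neg h3, mul_zero]
        · simp only
          rw [if_neg h2, zero_mul]
      · intro h2
        exact absurd (HasAntidiagonal.mem_antidiagonal.2 h1) h2
    · symm
      refine Finset.sum_eq_zero fun p hp => Finset.sum_eq_zero fun ab hab => ?_
      rw [Finset.HasAntidiagonal.mem_antidiagonal] at hp hab
      by_cases h2 : Finsupp.weight w p.1 = ab.1
      · by_cases h3 : Finsupp.weight w p.2 = ab.2
        · exfalso
          apply hd
          rw [← hp, map_add, h2, h3, hab]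
        · rw [if_neg h3, mul_zero]
      · rw [if_neg h2, zero_mul]

theorem coeff_wt (w : σ → ℕ) (f : MvPowerSeries σ R) (m : ℕ) :
    PowerSeries.coeff m (wt w f) = MvPowerSeries.weightedHomogeneousComponent w m f := by
  change PowerSeries.coeff m (PowerSeries.mk fun m =>
    MvPowerSeries.weightedHomogeneousComponent w m f) = _
  rw [PowerSeries.coeff_mk]

theorem wt_injective (w : σ → ℕ) : Function.Injective (wt (R := R) w) := by
  intro f g h
  ext d
  have h1 := congrArg (MvPowerSeries.coeff d)
    (congrArg (PowerSeries.coeff (Finsupp.weight w d)) h)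
  rw [coeff_wt, coeff_wt, MvPowerSeries.coeff_weightedHomogeneousComponent,
    MvPowerSeries.coeff_weightedHomogeneousComponent, if_pos rfl, if_pos rfl] at h1
  exact h1

theorem wt_X (w : σ → ℕ) (i : σ) :
    wt (R := R) w (MvPowerSeries.X i) = PowerSeries.C (MvPowerSeries.X i) * PowerSeries.X ^ w i := by
  classical
  ext m d
  rw [coeff_wt, MvPowerSeries.coeff_weightedHomogeneousComponent, PowerSeries.coeff_C_mul,
    PowerSeries.coeff_X_pow, MvPowerSeries.coeff_X]
  by_cases hd : d = Finsupp.single i 1
  · subst hd
    rw [Finsupp.weight_single]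
    by_cases hm : m = w i
    · subst hm
      simp
    · rw [if_neg hm, mul_zero, map_zero, if_neg]
      simpa using Ne.symm hm
  · rw [if_neg hd, ite_self]
    by_cases hm : m = w i
    · rw [if_pos hm, mul_one, MvPowerSeries.coeff_X, if_neg hd]
    · rw [if_neg hm, mul_zero, map_zero]

end Pool.Agent.J4.H30.NF
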