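import Pool.Agent.J4.H30.NF.Core
import Pool.Agent.J4.H30.NF.Wt

/-!
# Subfields of fields of formal power series in several variables
-/

set_option autoImplicit false

namespace Pool.Agent.J4.H30.NF

open IsLocalRing NNReal
open Pool.Agent.Y562.NN Pool.Agent.Results.MP_3554b5_lc.UnramifiedNorms

/-- the residue fields of the discrete valuation rings induced by power series have discrete
valuations -/
theorem hasExt_residue {F E : Type} [Field F] [Field E]
    (φ : F →+* FractionRing (PowerSeries E)) (ψ : E →+* FractionRing (PowerSeries E))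
    (u : F) (e : E) (hu : φ u = algebraMap (PowerSeries E) _ (PowerSeries.C e))
    (b : PowerSeries E) (he : ψ e = algebraMap (PowerSeries E) _ b) (hb0 : b ≠ 0)
    (hbu : ¬ IsUnit b) (k : Type) [Field k]
    (f : ResidueField (comapV (PowerSeries E) φ) →+* k) (hf : f.Finite) : HasExt k 3 := by
  let V := comapV (PowerSeries E) φ
  let ρ : V →+* E := (PowerSeries.constantCoeff (R := E)).comp (toA (PowerSeries E) φ)
  have hρ : IsLocalHom ρ := by
    refine ⟨fun x hx => ?_⟩
    rw [← isUnit_toA (A := PowerSeries E) φ x, PowerSeries.isUnit_iff_constantCoeff]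
    exact hx
  let χ : ResidueField V →+* E := ResidueField.lift ρ
  have hum : u ∈ V := by
    rw [mem_comapV]
    exact ⟨_, hu.symm⟩
  have hχ : χ (residue V ⟨u, hum⟩) = e := by
    change ResidueField.lift ρ (residue V ⟨u, hum⟩) = e
    rw [ResidueField.lift_residue_apply]
    change PowerSeries.constantCoeff (toA (PowerSeries E) φ ⟨u, hum⟩) = e
    rw [toA_eq φ ⟨u, hum⟩ (PowerSeries.C e) hu.symm, PowerSeries.constantCoeff_C]
  have hD : IsDiscreteValuationRing (comapV (PowerSeries E) (ψ.comp χ)) := by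
    refine isDVR (ψ.comp χ) (residue V ⟨u, hum⟩) b ?_ hb0 hbu
    rw [RingHom.comp_apply, hχ, he]
  let _ : Algebra (ResidueField V) k := f.toAlgebra
  let _ : Algebra (comapV (PowerSeries E) (ψ.comp χ)) k :=
    (f.comp (algebraMap (comapV (PowerSeries E) (ψ.comp χ)) (ResidueField V))).toAlgebra
  have h1 : IsScalarTower (comapV (PowerSeries E) (ψ.comp χ)) (ResidueField V) k :=
    IsScalarTower.of_algebraMap_eq' rfl
  have h2 : FiniteDimensional (ResidueField V) k := hf
  have h3 : ¬ IsField (comapV (PowerSeries E) (ψ.comp χ)) :=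
    IsDiscreteValuationRing.not_isField _
  obtain ⟨d, hd, L, fL, aL, h4, h5⟩ := exists_extension k
    (fun d hd => exists_not_pow (comapV (PowerSeries E) (ψ.comp χ)) (ResidueField V) k h3 d hd)
  refine ⟨d, ?_, ?_, L, fL, aL, h4, h5⟩ <;> omega

section Theta

variable (σ 𝕜 : Type) [Field 𝕜]

instance : IsDomain (MvPowerSeries σ 𝕜) := NoZeroDivisors.to_isDomain _

/-- the field of fractions of the ring of formal power series -/
abbrev FracSeries : Type := FractionRing (MvPowerSeries σ 𝕜)

variable {σ 𝕜}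

/-- the map of rings -/
noncomputable def theta0 (w : σ → ℕ) :
    MvPowerSeries σ 𝕜 →+* FractionRing (PowerSeries (FracSeries σ 𝕜)) :=
  ((algebraMap (PowerSeries (FracSeries σ 𝕜)) _).comp
    (PowerSeries.map (algebraMap (MvPowerSeries σ 𝕜) (FracSeries σ 𝕜)))).comp (wt w)

theorem theta0_injective (w : σ → ℕ) : Function.Injective (theta0 (𝕜 := 𝕜) w) := by
  refine ((IsFractionRing.injective (PowerSeries (FracSeries σ 𝕜)) _).comp ?_).comp
    (wt_injective w)
  intro f g h
  ext m : 1
  have h1 := congrArg (PowerSeries.coeff m) h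
  rw [PowerSeries.coeff_map, PowerSeries.coeff_map] at h1
  exact IsFractionRing.injective (MvPowerSeries σ 𝕜) (FracSeries σ 𝕜) h1

/-- the map of fields -/
noncomputable def theta (w : σ → ℕ) :
    FracSeries σ 𝕜 →+* FractionRing (PowerSeries (FracSeries σ 𝕜)) :=
  IsFractionRing.lift (theta0_injective w)

/-- the variables in the field -/
noncomputable def XX (i : σ) : FracSeries σ 𝕜 :=
  algebraMap (MvPowerSeries σ 𝕜) (FracSeries σ 𝕜) (MvPowerSeries.X i)

theorem XX_ne_zero (i : σ) : XX (𝕜 := 𝕜) i ≠ 0 := by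
  intro h
  have h1 : (MvPowerSeries.X i : MvPowerSeries σ 𝕜) = 0 :=
    IsFractionRing.injective (MvPowerSeries σ 𝕜) (FracSeries σ 𝕜) (by rw [map_zero]; exact h)
  have h2 := congrArg (MvPowerSeries.coeff (Finsupp.single i 1)) h1
  rw [MvPowerSeries.coeff_index_single_self_X, map_zero] at h2
  exact one_ne_zero h2

theorem theta_XX (w : σ → ℕ) (i : σ) :
    theta (𝕜 := 𝕜) w (XX i) = algebraMap (PowerSeries (FracSeries σ 𝕜)) _
      (PowerSeries.C (XX i) * PowerSeries.X ^ w i) := by
  rw [theta, XX, IsFractionRing.lift_algebraMap]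
  change algebraMap (PowerSeries (FracSeries σ 𝕜)) _ (PowerSeries.map _ (wt w _)) = _
  rw [wt_X, map_mul (PowerSeries.map _), map_pow (PowerSeries.map _), PowerSeries.map_C,
    PowerSeries.map_X]

theorem not_isUnit_CX {E : Type} [Field E] (c : E) (m : ℕ) (hm : m ≠ 0) :
    ¬ IsUnit (PowerSeries.C c * PowerSeries.X ^ m : PowerSeries E) := by
  rw [PowerSeries.isUnit_iff_constantCoeff]
  simp [hm]

theorem CX_ne_zero {E : Type} [Field E] (c : E) (hc : c ≠ 0) (m : ℕ) :
    (PowerSeries.C c * PowerSeries.X ^ m : PowerSeries E) ≠ 0 := by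
  refine mul_ne_zero ?_ (pow_ne_zero _ PowerSeries.X_ne_zero)
  intro h
  apply hc
  have h1 := congrArg (PowerSeries.coeff 0) h
  simpa using h1

/-- the weights -/
def wts [DecidableEq σ] (i j : σ) (a b : ℕ) : σ → ℕ :=
  fun l => if l = i then a else if l = j then b else 0

open Classical in
/-- The main result on subfields of fields of power series in at least two variables. -/
theorem several (κ : Type) [Field κ] (hκ : TameF κ) (F : Type) [Field F] [Algebra F κ]
    [FiniteDimensional F κ] (T : F →+* FracSeries σ 𝕜) (i j : σ) (hij : i ≠ j) (x y : F)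
    (hx : T x = XX i) (hy : T y = XX j) : False := by
  obtain ⟨N, hN⟩ := hκ 3
  let φ : Fin N → F →+* FractionRing (PowerSeries (FracSeries σ 𝕜)) := fun n =>
    (theta (wts i j 1 (n + 1))).comp T
  have hwi : ∀ a b, wts i j a b i = a := fun a b => by simp [wts]
  have hwj : ∀ a b, wts i j a b j = b := fun a b => by simp [wts, hij.symm]
  have hφx : ∀ n, φ n x = algebraMap (PowerSeries (FracSeries σ 𝕜)) _
      (PowerSeries.C (XX i) * PowerSeries.X ^ 1) := by
    intro n
    change theta _ (T x) = _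
    rw [hx, theta_XX, hwi]
  have hφy : ∀ n, φ n y = algebraMap (PowerSeries (FracSeries σ 𝕜)) _
      (PowerSeries.C (XX j) * PowerSeries.X ^ ((n : ℕ) + 1)) := by
    intro n
    change theta _ (T y) = _
    rw [hy, theta_XX, hwj]
  have hx0 : x ≠ 0 := by
    rintro rfl
    rw [map_zero] at hx
    exact XX_ne_zero i hx.symm
  have hy0 : y ≠ 0 := by
    rintro rfl
    rw [map_zero] at hy
    exact XX_ne_zero j hy.symm
  have hinj := IsFractionRing.injective (PowerSeries (FracSeries σ 𝕜))
    (FractionRing (PowerSeries (FracSeries σ 𝕜)))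
  have hC : ∀ e : FracSeries σ 𝕜, e ≠ 0 →
      algebraMap (PowerSeries (FracSeries σ 𝕜)) (FractionRing (PowerSeries (FracSeries σ 𝕜)))
        (PowerSeries.C e) ≠ 0 := by
    intro e he h
    rw [← map_zero (algebraMap (PowerSeries (FracSeries σ 𝕜)) _)] at h
    have h1 := CX_ne_zero e he 0
    rw [pow_zero, mul_one] at h1
    exact h1 (hinj h)
  have hT : algebraMap (PowerSeries (FracSeries σ 𝕜))
      (FractionRing (PowerSeries (FracSeries σ 𝕜))) PowerSeries.X ≠ 0 := by
    intro h
    rw [← map_zero (algebraMap (PowerSeries (FracSeries σ 𝕜)) _)] at h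
    exact PowerSeries.X_ne_zero (hinj h)
  -- the comparison elements
  have key : ∀ m n : Fin N, n < m →
      (comapV (PowerSeries (FracSeries σ 𝕜)) (φ m)).valuation (y ^ 2 / x ^ (2 * (n : ℕ) + 3)) < 1 ∧
      1 < (comapV (PowerSeries (FracSeries σ 𝕜)) (φ n)).valuation
        (y ^ 2 / x ^ (2 * (n : ℕ) + 3)) := by
    intro m n hnm
    obtain ⟨r, hr⟩ : ∃ r : ℕ, (m : ℕ) = n + r + 1 :=
      ⟨m - n - 1, by have : (n : ℕ) < m := hnm; omega⟩
    constructor
    · rw [valuation_lt_one_iff (φ m) _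
        (PowerSeries.C (XX j ^ 2 / XX i ^ (2 * (n : ℕ) + 3)) * PowerSeries.X ^ (2 * r + 1))]
      · exact not_isUnit_CX _ _ (by omega)
      · have h1 := hC (XX i) (XX_ne_zero i)
        rw [map_div₀, map_pow (φ m), map_pow (φ m), hφx, hφy,
          div_eq_iff (pow_ne_zero _ (by
            rw [map_mul, map_pow]
            exact mul_ne_zero h1 (pow_ne_zero _ hT))), ← map_pow, ← map_pow, ← map_mul]
        congr 1
        have h2 : (PowerSeries.C (XX j ^ 2 / XX i ^ (2 * (n : ℕ) + 3) : FracSeries σ 𝕜) :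
            PowerSeries (FracSeries σ 𝕜)) * PowerSeries.C (XX i) ^ (2 * (n : ℕ) + 3) =
            PowerSeries.C (XX j) ^ 2 := by
          rw [← map_pow, ← map_mul, div_mul_cancel₀ _ (pow_ne_zero _ (XX_ne_zero i)), map_pow]
        rw [mul_pow, mul_pow, ← h2, hr]
        ring
    · have h3 : (comapV (PowerSeries (FracSeries σ 𝕜)) (φ n)).valuation
          ((y ^ 2 / x ^ (2 * (n : ℕ) + 3))⁻¹) < 1 := by
        rw [valuation_lt_one_iff (φ n) _
          (PowerSeries.C (XX i ^ (2 * (n : ℕ) + 3) / XX j ^ 2) * PowerSeries.X ^ 1)]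
        · exact not_isUnit_CX _ _ (by omega)
        · have h1 := hC (XX j) (XX_ne_zero j)
          rw [inv_div, map_div₀, map_pow (φ n), map_pow (φ n), hφx, hφy,
            div_eq_iff (pow_ne_zero _ (by
              rw [map_mul, map_pow]
              exact mul_ne_zero h1 (pow_ne_zero _ hT))), ← map_pow, ← map_pow, ← map_mul]
          congr 1
          have h2 : (PowerSeries.C (XX i ^ (2 * (n : ℕ) + 3) / XX j ^ 2 : FracSeries σ 𝕜) :
              PowerSeries (FracSeries σ 𝕜)) * PowerSeries.C (XX j) ^ 2 =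
              PowerSeries.C (XX i) ^ (2 * (n : ℕ) + 3) := by
            rw [← map_pow, ← map_mul, div_mul_cancel₀ _ (pow_ne_zero _ (XX_ne_zero j)), map_pow]
          rw [mul_pow, mul_pow, ← h2]
          ring
      rw [map_inv₀] at h3
      refine (inv_lt_one₀ (pos_iff_ne_zero.2 ?_)).1 h3
      rw [Valuation.ne_zero_iff]
      exact div_ne_zero (pow_ne_zero _ hy0) (pow_ne_zero _ hx0)
  refine core_ext 3 N κ hN F (fun n => comapV (PowerSeries (FracSeries σ 𝕜)) (φ n))
    (fun n => isDVR (φ n) x _ (hφx n) (CX_ne_zero _ (XX_ne_zero i) 1)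
      (not_isUnit_CX _ _ (by omega))) ?_ ?_
  · intro m n hmn
    rcases lt_or_gt_of_ne hmn with h | h
    · obtain ⟨h1, h2⟩ := key n m h
      refine ⟨(y ^ 2 / x ^ (2 * (m : ℕ) + 3))⁻¹, ?_, ?_⟩
      · rw [map_inv₀]
        exact inv_lt_one_of_one_lt₀ h2
      · rw [map_inv₀]
        refine (one_lt_inv₀ (pos_iff_ne_zero.2 ?_)).2 h1
        rw [Valuation.ne_zero_iff]
        exact div_ne_zero (pow_ne_zero _ hy0) (pow_ne_zero _ hx0)
    · exact ⟨_, key m n h⟩
  · intro n k _ f hf _
    refine hasExt_residue (φ n) (theta (wts i j 0 1)) (y / x ^ ((n : ℕ) + 1))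
      (XX j / XX i ^ ((n : ℕ) + 1)) ?_ (PowerSeries.C (XX j / XX i ^ ((n : ℕ) + 1)) *
        PowerSeries.X ^ 1) ?_ (CX_ne_zero _ ?_ _) (not_isUnit_CX _ _ (by omega)) k f hf
    · have h1 := hC (XX i) (XX_ne_zero i)
      rw [map_div₀, map_pow (φ n), hφx, hφy, div_eq_iff (pow_ne_zero _ (by
          rw [map_mul, map_pow]
          exact mul_ne_zero h1 (pow_ne_zero _ hT))), ← map_pow, ← map_mul]
      congr 1
      have h2 : (PowerSeries.C (XX j / XX i ^ ((n : ℕ) + 1) : FracSeries σ 𝕜) :
          PowerSeries (FracSeries σ 𝕜)) * PowerSeries.C (XX i) ^ ((n : ℕ) + 1) =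
          PowerSeries.C (XX j) := by
        rw [← map_pow, ← map_mul, div_mul_cancel₀ _ (pow_ne_zero _ (XX_ne_zero i))]
      rw [mul_pow, ← h2]
      ring
    · have h1 := hC (XX i) (XX_ne_zero i)
      rw [map_div₀, map_pow, theta_XX, theta_XX, hwi, hwj, pow_zero, mul_one,
        div_eq_iff (pow_ne_zero _ h1), ← map_pow, ← map_mul]
      congr 1
      have h2 : (PowerSeries.C (XX j / XX i ^ ((n : ℕ) + 1) : FracSeries σ 𝕜) :
          PowerSeries (FracSeries σ 𝕜)) * PowerSeries.C (XX i) ^ ((n : ℕ) + 1) =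
          PowerSeries.C (XX j) := by
        rw [← map_pow, ← map_mul, div_mul_cancel₀ _ (pow_ne_zero _ (XX_ne_zero i))]
      rw [← h2]
      ring
    · exact div_ne_zero (XX_ne_zero j) (pow_ne_zero _ (XX_ne_zero i))

end Theta

end Pool.Agent.J4.H30.NF
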