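import Mathlib

/-!
# Taylor expansions
-/

set_option autoImplicit false

namespace Pool.Agent.J4.H30.NF

open Filter Topology

variable {𝕜 : Type*} [NontriviallyNormedField 𝕜] {n : ℕ}

/-- The formal power series `p` is the Taylor expansion of the function `f` on the set `D` at the
point `a`: for every `M` the difference of `f (a + y)` and of the sum of the terms of `p` of degree
less than `M` is at most a constant times `‖y‖ ^ M`, for all small `y` with `a + y` in `D`. -/
def HasTaylor {D : Set (Fin n → 𝕜)} (f : D → 𝕜) (a : Fin n → 𝕜) (p : MvPowerSeries (Fin n) 𝕜) :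
    Prop :=
  ∀ M : ℕ, ∃ C : ℝ, ∀ᶠ y : Fin n → 𝕜 in 𝓝 0, ∀ h : a + y ∈ D,
    ‖f ⟨a + y, h⟩ - MvPolynomial.eval y (MvPowerSeries.truncTotal M p)‖ ≤ C * ‖y‖ ^ M

/-! ### Polynomials -/

/-- polynomials without terms of small degree are small -/
theorem bound_poly (P : MvPolynomial (Fin n) 𝕜) (M : ℕ)
    (hP : ∀ d, d.degree < M → P.coeff d = 0) :
    ∃ C : ℝ, 0 ≤ C ∧ ∀ y : Fin n → 𝕜, ‖y‖ ≤ 1 → ‖MvPolynomial.eval y P‖ ≤ C * ‖y‖ ^ M := by
  refine ⟨∑ d ∈ P.support, ‖P.coeff d‖, Finset.sum_nonneg fun d _ => norm_nonneg _, fun y hy => ?_⟩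
  rw [MvPolynomial.eval_eq, Finset.sum_mul]
  refine (norm_sum_le _ _).trans (Finset.sum_le_sum fun d hd => ?_)
  rw [norm_mul]
  refine mul_le_mul_of_nonneg_left ?_ (norm_nonneg _)
  have h1 : M ≤ d.degree := by
    by_contra h
    exact (MvPolynomial.mem_support_iff.1 hd) (hP d (not_le.1 h))
  rw [Finset.prod_congr rfl fun i _ => rfl, norm_prod]
  calc ∏ i ∈ d.support, ‖y i ^ d i‖ ≤ ∏ i ∈ d.support, ‖y‖ ^ d i := by
        refine Finset.prod_le_prod (fun i _ => norm_nonneg _) fun i _ => ?_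
        rw [norm_pow]
        exact pow_le_pow_left₀ (norm_nonneg _) (norm_le_pi_norm y i) _
    _ = ‖y‖ ^ d.degree := by
        rw [Finset.prod_pow_eq_pow_sum]
        rfl
    _ ≤ ‖y‖ ^ M := pow_le_pow_of_le_one (norm_nonneg _) hy h1

/-- one variable: a polynomial of degree less than `M` which is `O(t ^ M)` is zero -/
theorem poly_eq_zero (G : Polynomial 𝕜) (M : ℕ) (hG : ∀ m, M ≤ m → G.coeff m = 0)
    (hO : ∃ C : ℝ, ∀ᶠ t : 𝕜 in 𝓝 0, ‖G.eval t‖ ≤ C * ‖t‖ ^ M) : G = 0 := by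
  by_contra h0
  obtain ⟨C, hC⟩ := hO
  obtain ⟨H, hH, hH0⟩ := Polynomial.exists_eq_pow_rootMultiplicity_mul_and_not_dvd G h0 0
  set k := G.rootMultiplicity 0 with hk
  rw [map_zero, sub_zero] at hH hH0
  have hH1 : H.eval 0 ≠ 0 := by
    intro h
    apply hH0
    rw [Polynomial.X_dvd_iff, Polynomial.coeff_zero_eq_eval_zero]
    exact h
  have hkM : k < M := by
    by_contra h
    have h1 := hG k (not_lt.1 h)
    rw [hH, Polynomial.coeff_X_pow_mul', if_pos le_rfl, Nat.sub_self,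
      Polynomial.coeff_zero_eq_eval_zero] at h1
    exact hH1 h1
  have h1 : ∀ᶠ t : 𝕜 in 𝓝[≠] 0, ‖H.eval t‖ ≤ C * ‖t‖ ^ (M - k) := by
    have h2 := hC.filter_mono (nhdsWithin_le_nhds (s := {0}ᶜ))
    filter_upwards [h2, self_mem_nhdsWithin] with t ht ht0
    have ht1 : 0 < ‖t‖ := norm_pos_iff.2 ht0
    rw [hH, Polynomial.eval_mul, Polynomial.eval_pow, Polynomial.eval_X, norm_mul, norm_pow] at ht
    have h3 : ‖t‖ ^ M = ‖t‖ ^ k * ‖t‖ ^ (M - k) := by
      rw [← pow_add]
      congr 1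
      omega
    rw [h3] at ht
    have h4 : ‖t‖ ^ k * ‖H.eval t‖ ≤ ‖t‖ ^ k * (C * ‖t‖ ^ (M - k)) := by
      refine ht.trans (le_of_eq ?_)
      ring
    exact le_of_mul_le_mul_left h4 (pow_pos ht1 _)
  have h2 : Tendsto (fun t : 𝕜 => ‖H.eval t‖) (𝓝[≠] 0) (𝓝 ‖H.eval 0‖) :=
    ((H.continuous.norm).tendsto 0).mono_left nhdsWithin_le_nhds
  have h3 : Tendsto (fun t : 𝕜 => C * ‖t‖ ^ (M - k)) (𝓝[≠] 0) (𝓝 0) := by
    have h4 : Tendsto (fun t : 𝕜 => C * ‖t‖ ^ (M - k)) (𝓝 0) (𝓝 (C * ‖(0 : 𝕜)‖ ^ (M - k))) :=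
      ((continuous_const.mul (continuous_norm.pow _)).tendsto 0)
    rw [norm_zero, zero_pow (by omega), mul_zero] at h4
    exact h4.mono_left nhdsWithin_le_nhds
  have h4 := le_of_tendsto_of_tendsto h2 h3 h1
  exact hH1 (norm_le_zero_iff.1 h4)

theorem eval_smul_hom (Q : MvPolynomial (Fin n) 𝕜) (m : ℕ) (hQ : ∀ d, Q.coeff d ≠ 0 → d.degree = m)
    (x : Fin n → 𝕜) (t : 𝕜) :
    MvPolynomial.eval (t • x) Q = t ^ m * MvPolynomial.eval x Q := by
  rw [MvPolynomial.eval_eq, MvPolynomial.eval_eq, Finset.mul_sum]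
  refine Finset.sum_congr rfl fun d hd => ?_
  rw [← hQ d (MvPolynomial.mem_support_iff.1 hd)]
  have h1 : ∏ i ∈ d.support, (t • x) i ^ d i = t ^ d.degree * ∏ i ∈ d.support, x i ^ d i := by
    have h2 : t ^ d.degree = ∏ i ∈ d.support, t ^ d i := by
      rw [Finset.prod_pow_eq_pow_sum]
      rfl
    rw [h2, ← Finset.prod_mul_distrib]
    refine Finset.prod_congr rfl fun i _ => ?_
    rw [Pi.smul_apply, smul_eq_mul, mul_pow]
  rw [h1]
  ring

/-- several variables: a polynomial of degree less than `M` which is `O(‖y‖ ^ M)` is zero -/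
theorem mvpoly_eq_zero (P : MvPolynomial (Fin n) 𝕜) (M : ℕ) (hP : ∀ d, M ≤ d.degree → P.coeff d = 0)
    (hO : ∃ C : ℝ, ∀ᶠ y : Fin n → 𝕜 in 𝓝 0, ‖MvPolynomial.eval y P‖ ≤ C * ‖y‖ ^ M) : P = 0 := by
  obtain ⟨C, hC⟩ := hO
  have hsum : P = ∑ m ∈ Finset.range M, MvPolynomial.homogeneousComponent m P := by
    ext d
    rw [MvPolynomial.coeff_sum]
    by_cases hd : d.degree < M
    · rw [Finset.sum_eq_single d.degree]
      · rw [MvPolynomial.coeff_homogeneousComponent, if_pos rfl]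
      · intro m _ hm
        rw [MvPolynomial.coeff_homogeneousComponent, if_neg (Ne.symm hm)]
      · intro h
        exact absurd (Finset.mem_range.2 hd) h
    · rw [hP d (not_lt.1 hd)]
      symm
      refine Finset.sum_eq_zero fun m hm => ?_
      rw [MvPolynomial.coeff_homogeneousComponent, if_neg]
      intro h
      rw [h] at hd
      exact hd (Finset.mem_range.1 hm)
  have hev : ∀ (x : Fin n → 𝕜) (t : 𝕜), MvPolynomial.eval (t • x) P =
      ∑ m ∈ Finset.range M, t ^ m * MvPolynomial.eval x (MvPolynomial.homogeneousComponent m P) := by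
    intro x t
    conv_lhs => rw [hsum]
    rw [map_sum]
    refine Finset.sum_congr rfl fun m _ => ?_
    refine eval_smul_hom _ m (fun d hd => ?_) x t
    rw [MvPolynomial.coeff_homogeneousComponent] at hd
    by_contra h
    exact hd (if_neg h)
  have hcomp : ∀ m ∈ Finset.range M, ∀ x : Fin n → 𝕜,
      MvPolynomial.eval x (MvPolynomial.homogeneousComponent m P) = 0 := by
    intro m hm x
    let G : Polynomial 𝕜 := ∑ m ∈ Finset.range M,
      Polynomial.monomial m (MvPolynomial.eval x (MvPolynomial.homogeneousComponent m P))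
    have hGc : ∀ m, G.coeff m = if m < M then
        MvPolynomial.eval x (MvPolynomial.homogeneousComponent m P) else 0 := by
      intro m
      simp only [G, Polynomial.finsetSum_coeff, Polynomial.coeff_monomial]
      rw [Finset.sum_ite_eq']
      simp only [Finset.mem_range]
    have hG0 : G = 0 := by
      refine poly_eq_zero G M (fun m hm => by rw [hGc, if_neg (not_lt.2 hm)]) ⟨C * ‖x‖ ^ M, ?_⟩
      have h1 : Tendsto (fun t : 𝕜 => t • x) (𝓝 0) (𝓝 0) := by
        have h2 : Tendsto (fun t : 𝕜 => t • x) (𝓝 0) (𝓝 ((0 : 𝕜) • x)) :=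
          (continuous_id.smul continuous_const).tendsto 0
        rwa [zero_smul] at h2
      filter_upwards [h1.eventually hC] with t ht
      rw [hev, norm_smul, mul_pow] at ht
      have h3 : G.eval t = ∑ m ∈ Finset.range M,
          t ^ m * MvPolynomial.eval x (MvPolynomial.homogeneousComponent m P) := by
        simp only [G, Polynomial.eval_finsetSum, Polynomial.eval_monomial]
        exact Finset.sum_congr rfl fun m _ => mul_comm _ _
      rw [h3]
      refine ht.trans (le_of_eq ?_)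
      ring
    have h4 := hGc m
    rw [hG0, Polynomial.coeff_zero, if_pos (Finset.mem_range.1 hm)] at h4
    exact h4.symm
  rw [hsum]
  refine Finset.sum_eq_zero fun m hm => ?_
  refine MvPolynomial.funext fun x => ?_
  rw [hcomp m hm x, map_zero]

/-! ### Rules for Taylor expansions -/

section Rules

variable {D : Set (Fin n → 𝕜)} {a : Fin n → 𝕜}

theorem eventually_mem (ha : a ∈ interior D) : ∀ᶠ y : Fin n → 𝕜 in 𝓝 0, a + y ∈ D := by
  have h1 : Tendsto (fun y : Fin n → 𝕜 => a + y) (𝓝 0) (𝓝 a) := by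
    have h2 : Tendsto (fun y : Fin n → 𝕜 => a + y) (𝓝 0) (𝓝 (a + 0)) :=
      tendsto_const_nhds.add tendsto_id
    rwa [add_zero] at h2
  exact h1.eventually (mem_interior_iff_mem_nhds.1 ha)

theorem eventually_norm_le : ∀ᶠ y : Fin n → 𝕜 in 𝓝 0, ‖y‖ ≤ 1 := by
  filter_upwards [Metric.ball_mem_nhds (0 : Fin n → 𝕜) one_pos] with y hy
  rw [mem_ball_zero_iff] at hy
  exact hy.le

theorem HasTaylor.unique (ha : a ∈ interior D) {f : D → 𝕜} {p q : MvPowerSeries (Fin n) 𝕜}
    (hp : HasTaylor f a p) (hq : HasTaylor f a q) : p = q := by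
  ext d
  have h : MvPowerSeries.truncTotal (d.degree + 1) p - MvPowerSeries.truncTotal (d.degree + 1) q =
      0 := by
    refine mvpoly_eq_zero _ (d.degree + 1) ?_ ?_
    · intro e he
      rw [MvPolynomial.coeff_sub, MvPowerSeries.coeff_truncTotal_eq_zero _ he,
        MvPowerSeries.coeff_truncTotal_eq_zero _ he, sub_zero]
    · obtain ⟨C1, h1⟩ := hp (d.degree + 1)
      obtain ⟨C2, h2⟩ := hq (d.degree + 1)
      refine ⟨C1 + C2, ?_⟩
      filter_upwards [h1, h2, eventually_mem ha] with y h1 h2 h3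
      have h4 := h1 h3
      have h5 := h2 h3
      rw [map_sub]
      calc _ = ‖(f ⟨a + y, h3⟩ - MvPolynomial.eval y (MvPowerSeries.truncTotal (d.degree + 1) q)) -
            (f ⟨a + y, h3⟩ - MvPolynomial.eval y
              (MvPowerSeries.truncTotal (d.degree + 1) p))‖ := by
            congr 1
            ring
        _ ≤ _ := (norm_sub_le _ _).trans (by linarith)
  have h1 := congrArg (MvPolynomial.coeff d) h
  rw [MvPolynomial.coeff_sub, MvPowerSeries.coeff_truncTotal _ (Nat.lt_succ_self _),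
    MvPowerSeries.coeff_truncTotal _ (Nat.lt_succ_self _), MvPolynomial.coeff_zero, sub_eq_zero]
    at h1
  exact h1

theorem HasTaylor.add {f g : D → 𝕜} {p q : MvPowerSeries (Fin n) 𝕜}
    (hp : HasTaylor f a p) (hq : HasTaylor g a q) : HasTaylor (f + g) a (p + q) := by
  intro M
  obtain ⟨C1, h1⟩ := hp M
  obtain ⟨C2, h2⟩ := hq M
  refine ⟨C1 + C2, ?_⟩
  filter_upwards [h1, h2] with y h1 h2 h3
  have h4 := h1 h3
  have h5 := h2 h3
  rw [map_add, map_add, Pi.add_apply, add_sub_add_comm]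
  exact (norm_add_le _ _).trans (by linarith)

theorem HasTaylor.mul {f g : D → 𝕜} {p q : MvPowerSeries (Fin n) 𝕜}
    (hp : HasTaylor f a p) (hq : HasTaylor g a q) : HasTaylor (f * g) a (p * q) := by
  intro M
  obtain ⟨C1, h1⟩ := hp M
  obtain ⟨C2, h2⟩ := hq M
  obtain ⟨B1, hB1, hb1⟩ := bound_poly (MvPowerSeries.truncTotal M p) 0 (by simp)
  obtain ⟨B2, hB2, hb2⟩ := bound_poly (MvPowerSeries.truncTotal M q) 0 (by simp)
  obtain ⟨B3, hB3, hb3⟩ := bound_poly (MvPowerSeries.truncTotal M p * MvPowerSeries.truncTotal M q -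
    MvPowerSeries.truncTotal M (p * q)) M (by
      intro d hd
      rw [MvPolynomial.coeff_sub,
        MvPowerSeries.coeff_truncTotal_mul_truncTotal_eq_coeff_mul _ _ hd,
        MvPowerSeries.coeff_truncTotal _ hd, sub_self])
  refine ⟨(B1 + |C1|) * |C2| + |C1| * B2 + B3, ?_⟩
  filter_upwards [h1, h2, eventually_norm_le] with y h1 h2 hy h3
  have h4 := h1 h3
  have h5 := h2 h3
  have h6 := hb1 y hy
  have h7 := hb2 y hy
  have h8 := hb3 y hy
  rw [map_sub, map_mul] at h8
  rw [pow_zero, mul_one] at h6 h7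
  have hyM : 0 ≤ ‖y‖ ^ M := pow_nonneg (norm_nonneg _) _
  have hyM1 : ‖y‖ ^ M ≤ 1 := pow_le_one₀ (norm_nonneg _) hy
  set F := f ⟨a + y, h3⟩
  set G := g ⟨a + y, h3⟩
  set P := MvPolynomial.eval y (MvPowerSeries.truncTotal M p)
  set Q := MvPolynomial.eval y (MvPowerSeries.truncTotal M q)
  set S := MvPolynomial.eval y (MvPowerSeries.truncTotal M (p * q))
  have h9 : ‖F - P‖ ≤ |C1| * ‖y‖ ^ M := h4.trans (mul_le_mul_of_nonneg_right (le_abs_self _) hyM)
  have h10 : ‖G - Q‖ ≤ |C2| * ‖y‖ ^ M := h5.trans (mul_le_mul_of_nonneg_right (le_abs_self _) hyM)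
  have h11 : ‖F‖ ≤ B1 + |C1| := by
    calc ‖F‖ = ‖P + (F - P)‖ := by congr 1; ring
      _ ≤ ‖P‖ + ‖F - P‖ := norm_add_le _ _
      _ ≤ B1 + |C1| := by
        have := mul_le_of_le_one_right (abs_nonneg C1) hyM1
        linarith
  rw [Pi.mul_apply]
  calc ‖F * G - S‖ = ‖F * (G - Q) + (F - P) * Q + (P * Q - S)‖ := by congr 1; ring
    _ ≤ ‖F‖ * ‖G - Q‖ + ‖F - P‖ * ‖Q‖ + ‖P * Q - S‖ := by
        refine (norm_add_le _ _).trans (add_le_add ((norm_add_le _ _).trans ?_) le_rfl)
        rw [norm_mul, norm_mul]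
    _ ≤ (B1 + |C1|) * (|C2| * ‖y‖ ^ M) + (|C1| * ‖y‖ ^ M) * B2 + B3 * ‖y‖ ^ M := by
        have hc : 0 ≤ |C1| := abs_nonneg _
        have hc2 : 0 ≤ |C2| := abs_nonneg _
        gcongr
    _ = _ := by ring

/-- polynomials -/
theorem hasTaylor_poly (f : D → 𝕜) (P : MvPolynomial (Fin n) 𝕜)
    (hf : ∀ y, ∀ h : a + y ∈ D, f ⟨a + y, h⟩ = MvPolynomial.eval y P) :
    HasTaylor f a (P : MvPowerSeries (Fin n) 𝕜) := by
  intro M
  obtain ⟨B, hB, hb⟩ := bound_poly (P - MvPowerSeries.truncTotal M (P : MvPowerSeries (Fin n) 𝕜)) M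
    (by
      intro d hd
      rw [MvPolynomial.coeff_sub, MvPowerSeries.coeff_truncTotal _ hd, MvPolynomial.coeff_coe,
        sub_self])
  refine ⟨B, ?_⟩
  filter_upwards [eventually_norm_le] with y hy h
  rw [hf, ← map_sub]
  exact hb y hy

theorem hasTaylor_zero : HasTaylor (0 : D → 𝕜) a 0 := by
  have h := hasTaylor_poly (a := a) (0 : D → 𝕜) 0 (fun y h => by simp)
  simpa using h

theorem hasTaylor_one : HasTaylor (1 : D → 𝕜) a 1 := by
  have h := hasTaylor_poly (a := a) (1 : D → 𝕜) 1 (fun y h => by simp)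
  simpa using h

theorem hasTaylor_coord (i : Fin n) :
    HasTaylor (fun x : D => x.1 i - a i) a (MvPowerSeries.X i) := by
  have h := hasTaylor_poly (a := a) (fun x : D => x.1 i - a i) (MvPolynomial.X i)
    (fun y h => by simp)
  simpa using h

/-- The ring homomorphism of a ring of functions with Taylor expansions to the ring of formal power
series. -/
noncomputable def taylorHom (ha : a ∈ interior D) (R : Subring (D → 𝕜))
    (hR : ∀ f ∈ R, ∃ p, HasTaylor f a p) : R →+* MvPowerSeries (Fin n) 𝕜 where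
  toFun f := Classical.choose (hR f.1 f.2)
  map_one' := (Classical.choose_spec (hR _ (1 : R).2)).unique ha hasTaylor_one
  map_zero' := (Classical.choose_spec (hR _ (0 : R).2)).unique ha hasTaylor_zero
  map_add' f g := (Classical.choose_spec (hR _ (f + g).2)).unique ha
    ((Classical.choose_spec (hR f.1 f.2)).add (Classical.choose_spec (hR g.1 g.2)))
  map_mul' f g := (Classical.choose_spec (hR _ (f * g).2)).unique ha
    ((Classical.choose_spec (hR f.1 f.2)).mul (Classical.choose_spec (hR g.1 g.2)))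

theorem taylorHom_spec (ha : a ∈ interior D) (R : Subring (D → 𝕜))
    (hR : ∀ f ∈ R, ∃ p, HasTaylor f a p) (f : R) : HasTaylor f.1 a (taylorHom ha R hR f) :=
  Classical.choose_spec (hR f.1 f.2)

end Rules

end Pool.Agent.J4.H30.NF
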